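import Pool.Agent.Helper98.EX.Stmts3

/-!
# POITAIL: Poisson tails
-/

set_option autoImplicit false

namespace Pool.Agent.Helper98.EX

open Finset

theorem poitail_nonneg {lam : ℝ} (h : 0 ≤ lam) (m : ℕ) : 0 ≤ poi lam m := by
  unfold poi
  positivity

theorem poitail_sum (lam : ℝ) : HasSum (poi lam) 1 := by
  have h1 : HasSum (fun n : ℕ => lam ^ n / (n.factorial : ℝ)) (Real.exp lam) := by
    rw [Real.exp_eq_exp_ℝ]
    exact NormedSpace.expSeries_div_hasSum_exp lam
  have h2 := h1.mul_left (Real.exp (-lam))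
  rw [← Real.exp_add, neg_add_cancel, Real.exp_zero] at h2
  have h3 : poi lam = fun n : ℕ => Real.exp (-lam) * (lam ^ n / (n.factorial : ℝ)) := by
    funext n
    unfold poi
    ring
  rw [h3]
  exact h2

theorem poitail_succ (lam : ℝ) (m : ℕ) : ((m : ℝ) + 1) * poi lam (m + 1) = lam * poi lam m := by
  unfold poi
  rw [Nat.factorial_succ, pow_succ]
  push_cast
  have h1 : (m.factorial : ℝ) ≠ 0 := by positivity
  have h2 : (m : ℝ) + 1 ≠ 0 := by positivity
  field_simp

theorem poitail_mean (lam : ℝ) : HasSum (fun m : ℕ => (m : ℝ) * poi lam m) lam := by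
  have h := (poitail_sum lam).mul_left lam
  rw [mul_one] at h
  rw [← hasSum_nat_add_iff' 1]
  simp only [Finset.range_one, Finset.sum_singleton, Nat.cast_zero, zero_mul, sub_zero]
  have h3 : (fun n : ℕ => ((n + 1 : ℕ) : ℝ) * poi lam (n + 1)) = fun n => lam * poi lam n := by
    funext n
    rw [← poitail_succ]
    push_cast
    ring
  rw [h3]
  exact h

theorem poitail_second (lam : ℝ) :
    HasSum (fun m : ℕ => (m : ℝ) * ((m : ℝ) - 1) * poi lam m) (lam * lam) := by
  have h := (poitail_mean lam).mul_left lam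
  rw [← hasSum_nat_add_iff' 1]
  simp only [Finset.range_one, Finset.sum_singleton, Nat.cast_zero, zero_mul, sub_zero]
  have h3 : (fun n : ℕ => ((n + 1 : ℕ) : ℝ) * (((n + 1 : ℕ) : ℝ) - 1) * poi lam (n + 1)) =
      fun n : ℕ => lam * ((n : ℝ) * poi lam n) := by
    funext n
    have := poitail_succ lam n
    push_cast
    linear_combination (n : ℝ) * this
  rw [h3]
  exact h

theorem poitail_var (lam : ℝ) :
    HasSum (fun m : ℕ => ((m : ℝ) - lam) ^ 2 * poi lam m) lam := by
  have h := ((poitail_second lam).add ((poitail_mean lam).mul_left (1 - 2 * lam))).add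
    ((poitail_sum lam).mul_left (lam ^ 2))
  have e : lam * lam + (1 - 2 * lam) * lam + lam ^ 2 * 1 = lam := by ring
  rw [e] at h
  have h3 : (fun m : ℕ => ((m : ℝ) - lam) ^ 2 * poi lam m) = fun m : ℕ =>
      (m : ℝ) * ((m : ℝ) - 1) * poi lam m + (1 - 2 * lam) * ((m : ℝ) * poi lam m) +
        lam ^ 2 * poi lam m := by
    funext m
    ring
  rw [h3]
  exact h

theorem poitail_cheb {lam : ℝ} (h : 0 ≤ lam) (d : ℝ) (hd : 0 < d) (p : ℕ → Prop)
    [DecidablePred p] (hp : ∀ m, p m → d ^ 2 ≤ ((m : ℝ) - lam) ^ 2) :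
    ∑' m : ℕ, (if p m then poi lam m else 0) ≤ lam / d ^ 2 := by
  have h1 := (poitail_var lam).div_const (d ^ 2)
  have h2 : ∀ m : ℕ, (if p m then poi lam m else 0) ≤ ((m : ℝ) - lam) ^ 2 * poi lam m / d ^ 2 := by
    intro m
    have h0 := poitail_nonneg h m
    split_ifs with hm
    · rw [le_div_iff₀ (by positivity)]
      have := hp m hm
      nlinarith
    · positivity
  have h3 : Summable (fun m : ℕ => (if p m then poi lam m else 0)) := by
    refine Summable.of_nonneg_of_le ?_ h2 h1.summable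
    intro m
    split_ifs
    · exact poitail_nonneg h m
    · exact le_rfl
  exact hasSum_le h2 h3.hasSum h1

/-- POITAIL -/
theorem st_POITAIL : ST_POITAIL := by
  intro lam h
  refine ⟨poitail_sum lam, ?_, ?_⟩
  · intro a ha
    exact poitail_cheb h (lam - a) (by linarith) (fun m => (m : ℝ) ≤ a)
      (fun m hm => by nlinarith)
  · intro a ha
    exact poitail_cheb h (a - lam) (by linarith) (fun m => a ≤ (m : ℝ))
      (fun m hm => by nlinarith)

end Pool.Agent.Helper98.EX
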