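import Pool.Agent.Helper98.EX.Stmts3

/-!
# TVUP: upper bound of the distance to equilibrium
-/

set_option autoImplicit false

namespace Pool.Agent.Helper98.EX

open Finset

theorem tvup_adm {N : ℕ} {w : ℕ → ℝ} (hw : ∀ x, 0 < w x ∧ w x ≤ 1) : Adm N (rE w) (lE w) := by
  intro x _ _
  unfold rE lE
  have h1 := hw (x - 1)
  have h2 := hw x
  exact ⟨h1.1, h1.2, by linarith, by linarith⟩

theorem tvup_poi {lam : ℝ} (h : 0 ≤ lam) (m : ℕ) : 0 ≤ poi lam m := by
  unfold poi
  positivity

theorem tvup_nh {N : ℕ} {r l : ℕ → ℝ} (ha : Adm N r l) (S : Finset ℕ) (T : Set (Cfg N)) (m : ℕ) :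
    ∀ η : Cfg N, 0 ≤ nohit r l S T m η ∧ nohit r l S T m η ≤ 1 := by
  induction m with
  | zero =>
    intro η
    have h1 := ind_nonneg T η
    have h2 := ind_le_one T η
    simp only [nohit]
    exact ⟨by linarith, by linarith⟩
  | succ m ih =>
    intro η
    have h1 := ind_nonneg T η
    have h2 := ind_le_one T η
    simp only [nohit]
    have h3 : 0 ≤ stp r l S (nohit r l S T m) η := stp_nonneg ha (fun ξ => (ih ξ).1) η
    have h4 : stp r l S (nohit r l S T m) η ≤ 1 := by
      have := stp_mono (S := S) ha (f := nohit r l S T m) (g := fun _ => 1) (fun ξ => (ih ξ).2) η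
      rwa [stp_const] at this
    exact ⟨mul_nonneg (by linarith) h3, by nlinarith⟩

theorem tvup_nh_succ {N : ℕ} {r l : ℕ → ℝ} (ha : Adm N r l) (S : Finset ℕ) (T : Set (Cfg N))
    (m : ℕ) : ∀ η : Cfg N, nohit r l S T (m + 1) η ≤ nohit r l S T m η := by
  induction m with
  | zero =>
    intro η
    have h1 := ind_nonneg T η
    have h2 := ind_le_one T η
    have h4 : stp r l S (nohit r l S T 0) η ≤ 1 := by
      have := stp_mono (S := S) ha (f := nohit r l S T 0) (g := fun _ => 1)
        (fun ξ => (tvup_nh ha S T 0 ξ).2) η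
      rwa [stp_const] at this
    change (1 - ind T η) * stp r l S (nohit r l S T 0) η ≤ 1 - ind T η
    nlinarith
  | succ m ih =>
    intro η
    have h2 := ind_le_one T η
    change (1 - ind T η) * stp r l S (nohit r l S T (m + 1)) η ≤
      (1 - ind T η) * stp r l S (nohit r l S T m) η
    exact mul_le_mul_of_nonneg_left (stp_mono ha ih η) (by linarith)

theorem tvup_nh_anti {N : ℕ} {r l : ℕ → ℝ} (ha : Adm N r l) (S : Finset ℕ) (T : Set (Cfg N))
    (η : Cfg N) : Antitone (fun m => nohit r l S T m η) :=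
  antitone_nat_of_succ_le (fun m => tvup_nh_succ ha S T m η)

/-- stationarity for `m` steps -/
theorem tvup_stat {N k : ℕ} {r l : ℕ → ℝ} {π : Cfg N → ℝ} (h : IsStat N k r l π)
    (f : Cfg N → ℝ) (m : ℕ) :
    ∑ η, π η * ev r l (fun _ => full N) m f η = ∑ η, π η * f η := by
  induction m with
  | zero => simp
  | succ m ih =>
    rw [← ih]
    exact h.stat _

/-- pairing of the extension with a function -/
theorem tvup_ext {N k : ℕ} (π : Conf N k → ℝ) (f : Cfg N → ℝ) :
    ∑ η, extC π η * f η = ∑ ξ : Conf N k, π ξ * f ξ.1 := by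
  classical
  have h1 : ∑ η : Cfg N, extC π η * f η =
      ∑ η ∈ Finset.univ.filter
        (fun η : Cfg N => (Finset.univ.filter (fun i => η i = true)).card = k), extC π η * f η := by
    symm
    apply Finset.sum_subset (Finset.filter_subset _ _)
    intro η _ h
    rw [Finset.mem_filter, not_and] at h
    have h' := h (Finset.mem_univ _)
    unfold extC
    rw [dif_neg h', zero_mul]
  rw [h1, Finset.sum_subtype (p := fun η : Cfg N =>
    (Finset.univ.filter (fun i => η i = true)).card = k) _ (fun x => by simp)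
    (fun η => extC π η * f η)]
  apply Finset.sum_congr rfl
  intro ξ _
  unfold extC
  rw [dif_pos ξ.2]

/-- TVUP -/
theorem st_TVUP (hP : ST_POI) (hT : ST_POITAIL) (hC : ST_COAL) (hS : ST_STC) : ST_TVUP := by
  classical
  intro N k w π t ψ m2 e hN hk hw hπ ht0 hnh
  have hadm : Adm N (rE w) (lE w) := tvup_adm hw
  have hlam : (0 : ℝ) ≤ 2 * N * t := by positivity
  obtain ⟨hs1, -, hs3⟩ := hS N k w hN hk hw
  have hst := hs3 π hπ
  have hpoi := (hT (2 * N * t) hlam).1
  have he : 0 ≤ e := (tvup_nh hadm (full N) {top N k} m2 (bot N k)).1.trans hnh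
  set r := rE w with hr
  set l := lE w with hl
  -- the total mass
  have hP1 : ∑ ξ, Pt w N k t ψ ξ = 1 := by
    have h1 := hP N k w t (fun _ => 1) ψ hN ht0
    simp only [ev_const, mul_one] at h1
    exact h1.unique hpoi
  -- the test function
  let g : Conf N k → ℝ := fun ξ => if π ξ < Pt w N k t ψ ξ then 1 else 0
  have hg0 : ∀ ξ, 0 ≤ g ξ := fun ξ => by simp only [g]; split_ifs <;> norm_num
  have hg1 : ∀ ξ, g ξ ≤ 1 := fun ξ => by simp only [g]; split_ifs <;> norm_num
  let f : Cfg N → ℝ := extC g
  have hf : ∀ ξ : Conf N k, f ξ.1 = g ξ := by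
    intro ξ
    simp only [f]
    unfold extC
    rw [dif_pos ξ.2]
  have hf0 : ∀ χ, 0 ≤ f χ := by
    intro χ
    simp only [f]
    unfold extC
    split_ifs
    · exact hg0 _
    · exact le_rfl
  have hf1 : ∀ χ, f χ ≤ 1 := by
    intro χ
    simp only [f]
    unfold extC
    split_ifs
    · exact hg1 _
    · norm_num
  -- the series
  have h2 := hP N k w t f ψ hN ht0
  have h3 := hpoi.mul_right (∑ η, extC π η * f η)
  rw [one_mul] at h3
  have h4 := h2.sub h3
  have h5 : tv (Pt w N k t ψ) π = ∑ ξ, Pt w N k t ψ ξ * f ξ.1 - ∑ η, extC π η * f η := by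
    rw [tvup_ext π f]
    unfold tv
    have h6 : ∀ ξ, |Pt w N k t ψ ξ - π ξ| =
        2 * (Pt w N k t ψ ξ * f ξ.1 - π ξ * f ξ.1) - (Pt w N k t ψ ξ - π ξ) := by
      intro ξ
      rw [hf]
      simp only [g]
      split_ifs with h
      · rw [abs_of_pos (by linarith)]
        ring
      · rw [abs_of_nonpos (by linarith)]
        ring
    rw [Finset.sum_congr rfl (fun ξ _ => h6 ξ), Finset.sum_sub_distrib, ← Finset.mul_sum,
      Finset.sum_sub_distrib, Finset.sum_sub_distrib, hP1, hπ.total]
    ring
  rw [h5]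
  -- bound of each term
  have h7 : ∀ m : ℕ, poi (2 * N * t) m * ev r l (fun _ => full N) m f ψ.1 -
      poi (2 * N * t) m * ∑ η, extC π η * f η ≤
      e * poi (2 * N * t) m + (if (m : ℝ) < m2 then poi (2 * N * t) m else 0) := by
    intro m
    have hp := tvup_poi hlam m
    have h8 : ev r l (fun _ => full N) m f ψ.1 - ∑ η, extC π η * f η ≤
        nohit r l (full N) {top N k} m (bot N k) := by
      rw [← tvup_stat hst f m]
      have h9 : ev r l (fun _ => full N) m f ψ.1 =
          ∑ η, extC π η * ev r l (fun _ => full N) m f ψ.1 := by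
        rw [← Finset.sum_mul, hst.total, one_mul]
      rw [h9, ← Finset.sum_sub_distrib]
      have h10 : nohit r l (full N) {top N k} m (bot N k) =
          ∑ η, extC π η * nohit r l (full N) {top N k} m (bot N k) := by
        rw [← Finset.sum_mul, hst.total, one_mul]
      rw [h10]
      apply Finset.sum_le_sum
      intro η _
      rw [← mul_sub]
      by_cases hη : ht η 0 = k
      · apply mul_le_mul_of_nonneg_left _ (hst.nonneg η)
        have hψ : ht ψ.1 0 = k := by rw [hs1, ψ.2]
        exact hC N k r l m f ψ.1 η (bot N k) hk hadm hψ hη (ht_bot_zero hk) (hle_bot hk hψ)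
          (hle_bot hk hη) hf0 hf1
      · rw [hst.supp η hη, zero_mul, zero_mul]
    have h11 : nohit r l (full N) {top N k} m (bot N k) ≤ e + (if (m : ℝ) < m2 then 1 else 0) := by
      split_ifs with hm
      · have := (tvup_nh hadm (full N) {top N k} m (bot N k)).2
        linarith
      · have hm' : m2 ≤ m := by
          rw [not_lt] at hm
          exact_mod_cast hm
        have := tvup_nh_anti hadm (full N) {top N k} (bot N k) hm'
        simp only at this
        linarith
    have h12 : poi (2 * N * t) m * (e + (if (m : ℝ) < m2 then 1 else 0)) =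
        e * poi (2 * N * t) m + (if (m : ℝ) < m2 then poi (2 * N * t) m else 0) := by
      split_ifs <;> ring
    rw [← mul_sub, ← h12]
    exact mul_le_mul_of_nonneg_left (h8.trans h11) hp
  have h13 : Summable (fun m : ℕ => (if (m : ℝ) < m2 then poi (2 * N * t) m else 0)) := by
    refine Summable.of_nonneg_of_le ?_ ?_ hpoi.summable
    · intro m
      split_ifs
      · exact tvup_poi hlam m
      · exact le_rfl
    · intro m
      split_ifs
      · exact le_rfl
      · exact tvup_poi hlam m
  have h14 := (hpoi.mul_left e).add h13.hasSum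
  rw [mul_one] at h14
  exact hasSum_le h7 h4 h14

end Pool.Agent.Helper98.EX
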